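import Pool.Agent.N375.AV.D
import Pool.Agent.L7h69.MZ.One

/-!
# MP_154526_nt: multiple zeta values with arguments near the values of additive functions and their compositions

A pattern in one variable is a list of letters `b + u s` with natural numbers `b`, `u`; at a natural number `s` it gives an
index. The first letters may be constant, of arbitrary weight, such as in `ζ(5, 1, s, 3, 2 s + 1)`. Let `w_1, ..., w_r` be
admissible patterns in one variable and `x_1, ..., x_t` arbitrary complex numbers, for instance `π`, `log 2`, or arbitrary
multiple zeta values.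

Let `F = f_1 ∘ ⋯ ∘ f_k` where each `f_i` is dominated by the largest prime factor: for `m ≥ 1` and the primes `p ≥ C`
larger than all prime powers dividing `m` the value `f (m p)` is at most `C p (1 + log (m p))^C`, and it determines `p`. For
example all additive functions with `f (q^j) ≤ C q^j` at the prime powers, injective at the large primes (the sum of the
prime factors, with or without multiplicity), the largest prime factor and Kempner's function (the least `k` such that `m`
divides `k!`). Let `G` be a function with steps bounded below by a positive constant and growth at most `v^d`, for example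
`G v = α v^d`, and `0 ≤ κ < 1`. We prove: for all `m ≤ N` but at most `K N exp (- c (log N)^(1 / (k + 1)))`, for ALL natural
numbers `s` with `|s - G (F m)| ≤ F(m)^κ`, EVERY polynomial relation of degree at most `D` with integer coefficients of
absolute value at most `C ^ s` between the `x_j` and the multiple zeta values `ζ(w_1(s)), ..., ζ(w_r(s))` is a consequence
of the stuffle product and of the algebraic relations between the `x_j` and the multiple zeta values of the fronts (the
constant first letters of the patterns).

The values of these functions are taken with very large multiplicities (`N^(1 - ε)` integers up to `N` have the same sum of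
prime factors), and all the integers in windows around them are considered; so this does not follow from the number of the
exceptional `s` (`ExceptionalTuples`, helper599). The theorem `MultiplicativeValues` of this page does not apply to
additive functions. Proof: preimages of thin sets under functions dominated by the largest prime factor are thin
(`N375/AV`, helper375).
-/

set_option autoImplicit false

namespace Pool.Agent.Results.MP_154526_nt.AdditiveFunctions

open Finset
open Pool.Agent.N375.AV (PD comp win_nat pd_additive pd_sopfr pd_largest pd_kempner)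
open Pool.Agent.N733.TG (Expanding expanding_pow)
open Pool.Agent.Results.MP_154526_nt.ExceptionalTuples
  (mzv Letter index AdmissiblePattern IsConsequence)
open Pool.Agent.Results.MP_154526_nt.MultiplicativeValues (OnlyConsequences)
open Pool.Agent.L7h69.MZ (thin_card)

/-- **Multiple zeta values near the values of additive functions.** Let `w_1, ..., w_r` be admissible patterns in one
variable, `D` a natural number, `C` a real number, `x_1, ..., x_t` complex numbers, `F = f_1 ∘ ⋯ ∘ f_k` with functions `f_i`
dominated by the largest prime factor, let `G` have steps `≥ a > 0` and growth at most `v^d`, and `0 ≤ κ < 1`. There are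
`c > 0` and `K` such that for all `N ≥ 1`, for all `m ≤ N` but at most `K N exp (- c (log N)^(1 / (k + 1)))`, for ALL natural
numbers `s` with `|s - G (F m)| ≤ F(m)^κ`: `s ≥ 1` and every polynomial relation of degree at most `D` with integer
coefficients of absolute value at most `C ^ s` between the `x_j` and the multiple zeta values `ζ(w_i(s))` is a consequence
of the stuffle product and of the algebraic relations between the `x_j` and the multiple zeta values of the fronts. All
additive functions with `f (q^j) ≤ C q^j`, injective at the large primes, the sum of the prime factors with multiplicity,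
the largest prime factor and Kempner's function are examples of such functions `f_i`, and `α v^d` with `α > 0`, `d ≥ 1` is
an example of `G`. -/
theorem result :
    (∀ {r t : ℕ} (w : Fin r → List (Letter 1)), (∀ i, AdmissiblePattern (w i)) → ∀ (D : ℕ) (C : ℝ) (x : Fin t → ℂ)
      (fs : List (ℕ → ℕ)), (∀ f ∈ fs, PD f) → ∀ (G : ℕ → ℝ) (d : ℝ), Expanding G d → ∀ κ : ℝ, 0 ≤ κ → κ < 1 →
      ∃ c K : ℝ, 0 < c ∧ ∀ N : ℕ, 1 ≤ N →
      ({m : ℕ | 1 ≤ m ∧ m ≤ N ∧ ¬ ∀ s : ℕ, |(s : ℝ) - G (comp fs m)| ≤ (comp fs m : ℝ) ^ κ →
        1 ≤ s ∧ OnlyConsequences w x D (C ^ s) (fun _ => s)}.ncard : ℝ) ≤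
        K * N * Real.exp (-(c * Real.log N ^ ((1 : ℝ) / (fs.length + 1))))) ∧
    ((∀ f : ℕ → ℕ, (∀ a b : ℕ, Nat.Coprime a b → f (a * b) = f a + f b) →
      (∃ C : ℕ, ∀ q j : ℕ, q.Prime → 1 ≤ j → f (q ^ j) ≤ C * q ^ j) →
      (∃ P : ℕ, ∀ p q : ℕ, p.Prime → q.Prime → P ≤ p → P ≤ q → f p = f q → p = q) → PD f) ∧
      PD (fun n => n.primeFactorsList.sum) ∧ PD (fun n => n.primeFactors.sup id) ∧
      PD (fun n => sInf {k : ℕ | n ∣ k.factorial})) ∧
    ∀ α d : ℝ, 0 < α → 1 ≤ d → Expanding (fun v => α * (v : ℝ) ^ d) d := by
  classical
  refine ⟨fun {r t} w hw D C x fs hfs G d hG κ hκ hκ1 => ?_,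
    ⟨fun f h1 h2 h3 => pd_additive h1 h2 h3, pd_sopfr, pd_largest, pd_kempner⟩, fun α d hα hd => expanding_pow hα hd⟩
  obtain ⟨c, K, hc, hK⟩ := win_nat {s : ℕ | ¬ OnlyConsequences w x D (C ^ s) (fun _ => s)} fs hfs hG
    (s := 0) (κ := κ) le_rfl hκ (by linarith) (fun ε hε => by
      obtain ⟨C₀, h⟩ := thin_card w hw x D C ε hε
      refine ⟨C₀, fun X hX => le_trans (le_of_eq ?_) (h X hX)⟩
      congr!)
  refine ⟨c, K, hc, fun N hN => le_trans (Nat.cast_le.2 (Set.ncard_le_ncard ?_ ?_)) (hK N hN)⟩
  · rintro m ⟨h2, h3, h4⟩
    push Not at h4
    obtain ⟨s, h5, h6⟩ := h4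
    refine ⟨h2, h3, s, ?_, h5⟩
    rcases Nat.eq_zero_or_pos s with h0 | h0
    · exact Or.inl h0
    · exact Or.inr (h6 h0)
  · exact (Set.finite_Icc 1 N).subset fun m hm => ⟨hm.1, hm.2.1⟩

end Pool.Agent.Results.MP_154526_nt.AdditiveFunctions
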